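import Pool.Agent.U136.DS.GenStm
import Pool.Agent.U908.EU.AE

set_option autoImplicit false

/-!
Project DS, package AED (helper411): for almost all polynomials of odd degree `d` all degrees of
near-resonance are small (first moment).
-/

namespace Pool.Agent.U411.DS

open MeasureTheory Pool.Agent.N983.RT Pool.Agent.U136.DS Pool.Agent.U29.EU Pool.Agent.U29.EU.AEp

theorem vol_w (hSLAB : S_SLAB) {d : ℕ} {κ : ℝ} (hκ : 0 < κ)
    (hV : ∀ k l m : Wv, k ≠ 0 → l ≠ 0 → m ≠ 0 → k + l + m = 0 →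
      ∃ β : Mi d, κ * mx k l m ^ (((d : ℝ) - 1) / 2) ≤ |mon β k + mon β l + mon β m|)
    (lam : Wv → ℝ) (n : ℕ) (τ θ : ℝ) (hτ : τ - θ < (d : ℝ) - 7) (p : Wv × Wv) :
    ENNReal.ofReal (mx p.1 p.2 (-(p.1 + p.2)) ^ (-θ / 2)) * volume (bad (d := d) lam n τ p) ≤
      ENNReal.ofReal
      (((2 * (n : ℝ)) ^ (Fintype.card (Mi d) - 1) * (2 * n / κ) *
          (1 / 3 : ℝ) ^ (-((d : ℝ) - 1 - τ + θ) / 2)) *
        (1 + nsq p.1 + nsq p.2) ^ (-((d : ℝ) - 1 - τ + θ) / 2)) := by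
  obtain ⟨k, l⟩ := p
  by_cases h0 : k ≠ 0 ∧ l ≠ 0 ∧ -(k + l) ≠ 0
  swap
  · have : bad (d := d) lam n τ (k, l) = ∅ := by
      ext c
      simp only [bad, Set.mem_ofPred_eq, Set.mem_empty_iff_false, iff_false]
      rintro ⟨h1, -⟩
      exact h0 h1
    rw [this, measure_empty, mul_zero]
    exact bot_le
  · obtain ⟨β, hβ⟩ := hV k l (-(k + l)) h0.1 h0.2.1 h0.2.2 (by abel)
    have hm := mx_one k l (-(k + l)) h0.1
    have hm3 := mx_three k l (-(k + l)) h0.1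
    simp only
    set X := mx k l (-(k + l)) with hX
    have hX0 : 0 < X := by linarith
    have ha : 0 < κ * X ^ (((d : ℝ) - 1) / 2) := mul_pos hκ (Real.rpow_pos_of_pos hX0 _)
    have hh : 0 ≤ (n : ℝ) * X ^ (τ / 2) := mul_nonneg n.cast_nonneg (Real.rpow_nonneg hX0.le _)
    have h1 := hSLAB (Mi d) (fun β => mon β k + mon β l + mon β (-(k + l)))
      (κ * X ^ (((d : ℝ) - 1) / 2)) (lam k + lam l + lam (-(k + l))) ((n : ℝ) * X ^ (τ / 2)) n
      ha hh n.cast_nonneg ⟨β, hβ⟩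
    have h1' : volume (bad (d := d) lam n τ (k, l)) ≤ ENNReal.ofReal
        ((2 * (n : ℝ)) ^ (Fintype.card (Mi d) - 1) *
          (2 * ((n : ℝ) * X ^ (τ / 2)) / (κ * X ^ (((d : ℝ) - 1) / 2)))) := by
      refine le_trans (measure_mono ?_) h1
      rintro c ⟨-, h2, h3⟩
      exact ⟨h2, h3⟩
    refine le_trans (mul_le_mul_right h1' _) ?_
    rw [← ENNReal.ofReal_mul (Real.rpow_nonneg hX0.le _)]
    apply ENNReal.ofReal_le_ofReal
    have h2 : X ^ (-θ / 2) * ((2 * (n : ℝ)) ^ (Fintype.card (Mi d) - 1) *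
        (2 * ((n : ℝ) * X ^ (τ / 2)) / (κ * X ^ (((d : ℝ) - 1) / 2)))) =
        (2 * (n : ℝ)) ^ (Fintype.card (Mi d) - 1) *
          (2 * n / κ * X ^ (-((d : ℝ) - 1 - τ + θ) / 2)) := by
      have h3 : X ^ (-θ / 2) * X ^ (τ / 2) =
          X ^ (-((d : ℝ) - 1 - τ + θ) / 2) * X ^ (((d : ℝ) - 1) / 2) := by
        rw [← Real.rpow_add hX0, ← Real.rpow_add hX0]
        congr 1
        ring
      have h4 : X ^ (((d : ℝ) - 1) / 2) ≠ 0 := (Real.rpow_pos_of_pos hX0 _).ne'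
      have h5 : 2 * ((n : ℝ) * X ^ (τ / 2)) / (κ * X ^ (((d : ℝ) - 1) / 2)) * X ^ (-θ / 2) =
          2 * n / κ * X ^ (-((d : ℝ) - 1 - τ + θ) / 2) := by
        rw [div_mul_eq_mul_div, div_mul_eq_mul_div, div_eq_div_iff (by positivity) (by positivity)]
        linear_combination (2 * (n : ℝ) * κ) * h3
      rw [← h5]
      ring
    rw [h2, mul_assoc, mul_assoc]
    apply mul_le_mul_of_nonneg_left _ (by positivity)
    apply mul_le_mul_of_nonneg_left _ (by positivity)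
    have h4 : 0 < (1 + nsq k + nsq l) := by
      have := AEp.nsq_nonneg k
      have := AEp.nsq_nonneg l
      linarith
    rw [← Real.mul_rpow (by norm_num) h4.le]
    apply Real.rpow_le_rpow_of_nonpos
    · positivity
    · linarith
    · linarith

theorem meas_bad {d : ℕ} (lam : Wv → ℝ) (n : ℕ) (τ : ℝ) (p : Wv × Wv) :
    MeasurableSet (bad (d := d) lam n τ p) := by
  by_cases h0 : p.1 ≠ 0 ∧ p.2 ≠ 0 ∧ -(p.1 + p.2) ≠ 0
  swap
  · have : bad (d := d) lam n τ p = ∅ := by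
      ext c
      simp only [bad, Set.mem_ofPred_eq, Set.mem_empty_iff_false, iff_false]
      rintro ⟨h1, -⟩
      exact h0 h1
    rw [this]
    exact MeasurableSet.empty
  · have : bad (d := d) lam n τ p = (⋂ i, {c : Mi d → ℝ | |c i| ≤ (n : ℝ)}) ∩
        {c | |(lam p.1 + lam p.2 + lam (-(p.1 + p.2))) +
      ∑ β, c β * (mon β p.1 + mon β p.2 + mon β (-(p.1 + p.2)))| ≤
      n * mx p.1 p.2 (-(p.1 + p.2)) ^ (τ / 2)} := by
      ext c
      simp only [bad, Set.mem_ofPred_eq, Set.mem_inter_iff, Set.mem_iInter]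
      constructor
      · rintro ⟨-, h2, h3⟩
        exact ⟨h2, h3⟩
      · rintro ⟨h2, h3⟩
        exact ⟨h0, h2, h3⟩
    rw [this]
    apply MeasurableSet.inter
    · apply MeasurableSet.iInter
      intro i
      exact (isClosed_le (by fun_prop) continuous_const).measurableSet
    · exact (isClosed_le (by fun_prop) continuous_const).measurableSet

/-- the weighted number of near-resonant triads -/
noncomputable def Xw {d : ℕ} (lam : Wv → ℝ) (n : ℕ) (τ θ : ℝ) (c : Mi d → ℝ) : ENNReal :=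
  ∑' p : Wv × Wv, (bad (d := d) lam n τ p).indicator
    (fun _ => ENNReal.ofReal (mx p.1 p.2 (-(p.1 + p.2)) ^ (-θ / 2))) c

theorem ae_Xw (hSLAB : S_SLAB) (hVEC : S_VEC) (hCNT : S_CNT) {d : ℕ} (hd : Odd d) (hd3 : 3 ≤ d)
    (lam : Wv → ℝ) (n : ℕ) (τ θ : ℝ) (hτ : τ - θ < (d : ℝ) - 7) :
    ∀ᵐ c : Mi d → ℝ, Xw lam n τ θ c < ⊤ := by
  obtain ⟨κ, hκ, hV⟩ := hVEC d hd hd3
  have hmeas : ∀ p : Wv × Wv, Measurable ((bad (d := d) lam n τ p).indicator
      (fun _ => ENNReal.ofReal (mx p.1 p.2 (-(p.1 + p.2)) ^ (-θ / 2)))) := fun p =>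
    measurable_const.indicator (meas_bad lam n τ p)
  have hM : Measurable (Xw (d := d) lam n τ θ) := Measurable.ennreal_tsum hmeas
  apply ae_lt_top' hM.aemeasurable
  unfold Xw
  rw [lintegral_tsum (fun p => (hmeas p).aemeasurable)]
  have hs := hCNT ((d : ℝ) - 1 - τ + θ) (by linarith)
  have hs2 := hs.mul_left ((2 * (n : ℝ)) ^ (Fintype.card (Mi d) - 1) * (2 * n / κ) *
        (1 / 3 : ℝ) ^ (-((d : ℝ) - 1 - τ + θ) / 2))
  refine ne_top_of_le_ne_top hs2.tsum_ofReal_ne_top (ENNReal.tsum_le_tsum fun p => ?_)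
  rw [lintegral_indicator_const (meas_bad lam n τ p)]
  exact vol_w hSLAB hκ hV lam n τ θ hτ p

theorem nsq_cub {R : ℕ} {k : Wv} (hk : k ∈ cub R) : nsq k ≤ 3 * (R : ℝ) ^ 2 := by
  unfold cub at hk
  rw [Fintype.mem_piFinset] at hk
  unfold nsq
  have h : ∀ i, (k i : ℝ) ^ 2 ≤ (R : ℝ) ^ 2 := by
    intro i
    have h1 := Finset.mem_Icc.1 (hk i)
    have h2 : (-(R : ℝ)) ≤ (k i : ℝ) := by exact_mod_cast h1.1
    have h3 : (k i : ℝ) ≤ R := by exact_mod_cast h1.2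
    exact sq_le_sq' h2 h3
  rw [Fin.sum_univ_three]
  linarith [h 0, h 1, h 2]

theorem nsq_add_cub {R : ℕ} {k m : Wv} (hk : k ∈ cub R) (hm : m ∈ cub R) :
    nsq (-(k + m)) ≤ 12 * (R : ℝ) ^ 2 := by
  unfold cub at hk hm
  rw [Fintype.mem_piFinset] at hk hm
  unfold nsq
  have h : ∀ i, (((-(k + m)) i : ℤ) : ℝ) ^ 2 ≤ 4 * (R : ℝ) ^ 2 := by
    intro i
    have h1 := Finset.mem_Icc.1 (hk i)
    have h4 := Finset.mem_Icc.1 (hm i)
    have h2 : (-(R : ℝ)) ≤ (k i : ℝ) := by exact_mod_cast h1.1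
    have h3 : (k i : ℝ) ≤ R := by exact_mod_cast h1.2
    have h5 : (-(R : ℝ)) ≤ (m i : ℝ) := by exact_mod_cast h4.1
    have h6 : (m i : ℝ) ≤ R := by exact_mod_cast h4.2
    have h7 : (((-(k + m)) i : ℤ) : ℝ) = -((k i : ℝ) + (m i : ℝ)) := by
      simp only [Pi.neg_apply, Pi.add_apply]
      push_cast
      ring
    rw [h7]
    have h8 : (-((k i : ℝ) + (m i : ℝ))) ^ 2 ≤ (2 * (R : ℝ)) ^ 2 := sq_le_sq' (by linarith) (by linarith)
    linarith [h8]
  rw [Fin.sum_univ_three]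
  linarith [h 0, h 1, h 2]

theorem mx_cub {R : ℕ} {k m : Wv} (hk : k ∈ cub R) (hm : m ∈ cub R) :
    mx k (-(k + m)) m ≤ 12 * (R : ℝ) ^ 2 := by
  have h1 := nsq_cub hk
  have h2 := nsq_cub hm
  have h3 := nsq_add_cub hk hm
  have h4 : 0 ≤ (R : ℝ) ^ 2 := sq_nonneg _
  unfold mx
  exact max_le (by linarith) (max_le h3 (by linarith))

/-- **Package AED**. -/
theorem t_AED : S_AED := by
  intro hSLAB hVEC hCNT d hd hd3 lam c₁ τ θ hθ hτ
  have key : ∀ n : ℕ, ∀ᵐ c : Mi d → ℝ, Xw lam n τ θ c < ⊤ := fun n =>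
    ae_Xw hSLAB hVEC hCNT hd hd3 lam n τ θ hτ
  filter_upwards [ae_all_iff.2 key] with c hc
  obtain ⟨n, hn⟩ := exists_nat_ge (∑ i, |c i| + |c₁|)
  have h5 : ∀ i, |c i| ≤ (n : ℝ) := by
    intro i
    have := Finset.single_le_sum (f := fun i => |c i|) (fun _ _ => abs_nonneg _)
      (Finset.mem_univ i)
    have := abs_nonneg c₁
    linarith
  have h6 : c₁ ≤ (n : ℝ) := by
    have h2 : 0 ≤ ∑ i, |c i| := Finset.sum_nonneg fun _ _ => abs_nonneg _
    have := le_abs_self c₁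
    linarith
  refine ⟨(Xw lam n τ θ c).toReal * (12 : ℝ) ^ (θ / 2), ?_⟩
  intro R hR m hm
  set A := (cub R).filter fun k => near (fun k => lam k + pol c k) c₁ τ k (-(k + m)) m ≠ 0 with hA
  have hR0 : (0 : ℝ) < R := by exact_mod_cast hR
  have hP : (0 : ℝ) < 12 * (R : ℝ) ^ 2 := by positivity
  have hbad : ∀ k ∈ A, c ∈ bad lam n τ (k, -(k + m)) ∧
      (12 * (R : ℝ) ^ 2) ^ (-θ / 2) ≤ mx k (-(k + m)) (-(k + -(k + m))) ^ (-θ / 2) := by
    intro k hk
    have hk1 := (Finset.mem_filter.1 hk).1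
    have hk2 := (Finset.mem_filter.1 hk).2
    have e : -(k + -(k + m)) = m := by abel
    constructor
    · apply near_bad lam n τ c h5
      simp only
      rw [e]
      exact near_mono _ _ _ _ _ h6 n.cast_nonneg le_rfl _ _ _ hk2
    · rw [e]
      have hk0 : k ≠ 0 := by
        unfold near at hk2
        split_ifs at hk2 with h1
        · exact h1.1
        · exact absurd rfl hk2
      have h1 := mx_one k (-(k + m)) m hk0
      apply Real.rpow_le_rpow_of_nonpos (by linarith) (mx_cub hk1 hm)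
      linarith
  have hsum : (A.card : ENNReal) * ENNReal.ofReal ((12 * (R : ℝ) ^ 2) ^ (-θ / 2)) ≤
      Xw lam n τ θ c := by
    have hinj : Set.InjOn (fun k : Wv => ((k, -(k + m)) : Wv × Wv)) (A : Set Wv) := by
      intro k _ k' _ h
      exact (Prod.mk.inj h).1
    calc (A.card : ENNReal) * ENNReal.ofReal ((12 * (R : ℝ) ^ 2) ^ (-θ / 2))
        = ∑ k ∈ A, ENNReal.ofReal ((12 * (R : ℝ) ^ 2) ^ (-θ / 2)) := by
          rw [Finset.sum_const, nsmul_eq_mul]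
      _ ≤ ∑ k ∈ A, (bad (d := d) lam n τ (k, -(k + m))).indicator
            (fun _ => ENNReal.ofReal (mx k (-(k + m)) (-(k + -(k + m))) ^ (-θ / 2))) c := by
          apply Finset.sum_le_sum
          intro k hk
          obtain ⟨h1, h2⟩ := hbad k hk
          rw [Set.indicator_of_mem h1]
          exact ENNReal.ofReal_le_ofReal h2
      _ = ∑ p ∈ A.image (fun k : Wv => ((k, -(k + m)) : Wv × Wv)),
            (bad (d := d) lam n τ p).indicator
            (fun _ => ENNReal.ofReal (mx p.1 p.2 (-(p.1 + p.2)) ^ (-θ / 2))) c := by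
          rw [Finset.sum_image hinj]
      _ ≤ Xw lam n τ θ c := ENNReal.sum_le_tsum _
  have hreal : (A.card : ℝ) * (12 * (R : ℝ) ^ 2) ^ (-θ / 2) ≤ (Xw lam n τ θ c).toReal := by
    have h1 := ENNReal.toReal_mono (hc n).ne hsum
    rw [ENNReal.toReal_mul, ENNReal.toReal_natCast, ENNReal.toReal_ofReal (by positivity)] at h1
    exact h1
  have h7 : (12 * (R : ℝ) ^ 2) ^ (-θ / 2) * (12 * (R : ℝ) ^ 2) ^ (θ / 2) = 1 := by
    rw [← Real.rpow_add hP]
    rw [show -θ / 2 + θ / 2 = 0 by ring, Real.rpow_zero]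
  have h8 : (12 * (R : ℝ) ^ 2) ^ (θ / 2) = (12 : ℝ) ^ (θ / 2) * (R : ℝ) ^ θ := by
    rw [Real.mul_rpow (by norm_num) (by positivity)]
    congr 1
    rw [← Real.rpow_natCast, ← Real.rpow_mul hR0.le]
    congr 1
    push_cast
    ring
  have h9 : (A.card : ℝ) = ((A.card : ℝ) * (12 * (R : ℝ) ^ 2) ^ (-θ / 2)) *
      (12 * (R : ℝ) ^ 2) ^ (θ / 2) := by
    rw [mul_assoc, h7, mul_one]
  rw [h9]
  calc _ ≤ (Xw lam n τ θ c).toReal * (12 * (R : ℝ) ^ 2) ^ (θ / 2) :=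
        mul_le_mul_of_nonneg_right hreal (Real.rpow_nonneg hP.le _)
    _ = _ := by rw [h8]; ring

end Pool.Agent.U411.DS
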